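import Mathlib

/-!
# MP_b6277e_co: every superpattern of T₂ ⊕ T₂ is spectrally arbitrary
-/

set_option autoImplicit false

open Polynomial Topology Filter

namespace Pool.Agent.Results.MP_b6277e_co.SuperT2T2

/-- the real matrix `A` is a realization of the sign pattern `S`. -/
def IsRealization {n : ℕ} (S : Matrix (Fin n) (Fin n) SignType)
    (A : Matrix (Fin n) (Fin n) ℝ) : Prop :=
  ∀ i j, SignType.sign (A i j) = S i j

/-- every monic real polynomial of degree `n` is the characteristic polynomial of a realization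
of the sign pattern `S`. -/
def SpectrallyArbitrary {n : ℕ} (S : Matrix (Fin n) (Fin n) SignType) : Prop :=
  ∀ p : ℝ[X], p.Monic → p.natDegree = n →
    ∃ A : Matrix (Fin n) (Fin n) ℝ, IsRealization S A ∧ A.charpoly = p

/-- `B` is a superpattern of `A`. -/
def IsSuperpattern {n : ℕ} (B A : Matrix (Fin n) (Fin n) SignType) : Prop :=
  ∀ i j, A i j ≠ 0 → B i j = A i j

/-- the sign pattern `T₂ ⊕ T₂`. -/
def T2T2 : Matrix (Fin 4) (Fin 4) SignType :=
  !![1, 1, 0, 0;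
     -1, -1, 0, 0;
     0, 0, 1, 1;
     0, 0, -1, -1]

/-! ### Products of two quadratics -/

/-- the space of parameters `(f₁, f₀, g₁, g₀)`, and of coefficients `(c₃, c₂, c₁, c₀)`. -/
abbrev E := ℝ × ℝ × ℝ × ℝ

/-- the coefficients of the product of two monic quadratics. -/
def Phi (y : E) : E :=
  (y.1 + y.2.2.1, y.2.1 + y.2.2.2 + y.1 * y.2.2.1, y.1 * y.2.2.2 + y.2.1 * y.2.2.1,
    y.2.1 * y.2.2.2)

/-- the resultant of the two quadratics. -/
def Res (y : E) : ℝ :=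
  (y.2.1 - y.2.2.2) ^ 2 - y.1 * (y.1 - y.2.2.1) * (y.2.1 - y.2.2.2) +
    y.2.1 * (y.1 - y.2.2.1) ^ 2

theorem quad_deriv (k h q : ℝ) : HasDerivAt (fun r : ℝ => k + r * h + r ^ 2 * q) h 0 := by
  have h1 : HasDerivAt (fun r : ℝ => k + r * h + r ^ 2 * q) (0 + 1 * h + (2 * (0 : ℝ) ^ (2 - 1) * 1) * q) 0 := by
    apply HasDerivAt.add
    · apply HasDerivAt.add
      · exact hasDerivAt_const _ _
      · exact (hasDerivAt_id' (0 : ℝ)).mul_const h
    · exact ((hasDerivAt_id' (0 : ℝ)).pow 2).mul_const q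
  simpa using h1

theorem surj_line (y : E) (hR : Res y ≠ 0) (c h : E) :
    ∃ dy : E, HasDerivAt (fun r : ℝ => Phi (y + r • dy) - c) h 0 := by
  obtain ⟨f1, f0, g1, g0⟩ := y
  obtain ⟨c3, c2, c1, c0⟩ := c
  obtain ⟨h3, h2, h1, h0⟩ := h
  unfold Res at hR
  dsimp only at hR
  set R := (f0 - g0) ^ 2 - f1 * (f1 - g1) * (f0 - g0) + f0 * (f1 - g1) ^ 2 with hRdef
  set α := f1 - g1 with hα
  set β := f0 - g0 with hβ
  obtain ⟨x, hx⟩ : ∃ x, x * R = -β * (h1 - f1 * (h2 - f1 * h3) - f0 * h3) +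
      α * (h0 - f0 * (h2 - f1 * h3)) := ⟨_, div_mul_cancel₀ _ hR⟩
  obtain ⟨z, hz⟩ : ∃ z, z * R = (f1 * α - β) * (h0 - f0 * (h2 - f1 * h3)) -
      f0 * α * (h1 - f1 * (h2 - f1 * h3) - f0 * h3) := ⟨_, div_mul_cancel₀ _ hR⟩
  refine ⟨(x, z, h3 - x, (h2 - f1 * h3) - z + α * x), ?_⟩
  have e2 : z + ((h2 - f1 * h3) - z + α * x) + f1 * (h3 - x) + g1 * x = h2 := by
    rw [hα]; ring
  have e1 : x * g0 + f1 * ((h2 - f1 * h3) - z + α * x) + z * g1 + f0 * (h3 - x) = h1 := by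
    apply mul_right_cancel₀ hR
    have : (x * g0 + f1 * ((h2 - f1 * h3) - z + α * x) + z * g1 + f0 * (h3 - x)) * R =
        (x * R) * (g0 + f1 * α - f0) + (z * R) * (g1 - f1) +
        (f1 * (h2 - f1 * h3) + f0 * h3) * R := by ring
    rw [this, hx, hz, hRdef, hα, hβ]
    ring
  have e0 : z * g0 + f0 * ((h2 - f1 * h3) - z + α * x) = h0 := by
    apply mul_right_cancel₀ hR
    have : (z * g0 + f0 * ((h2 - f1 * h3) - z + α * x)) * R =
        (x * R) * (f0 * α) + (z * R) * (g0 - f0) + f0 * (h2 - f1 * h3) * R := by ring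
    rw [this, hx, hz, hRdef, hα, hβ]
    ring
  have hfun : (fun r : ℝ => Phi ((f1, f0, g1, g0) +
      r • ((x, z, h3 - x, (h2 - f1 * h3) - z + α * x) : E)) - (c3, c2, c1, c0)) =
      fun r : ℝ => ((f1 + g1 - c3) + r * h3 + r ^ 2 * 0,
        (f0 + g0 + f1 * g1 - c2) + r * h2 + r ^ 2 * (x * (h3 - x)),
        (f1 * g0 + f0 * g1 - c1) + r * h1 + r ^ 2 *
          (x * ((h2 - f1 * h3) - z + α * x) + z * (h3 - x)),
        (f0 * g0 - c0) + r * h0 + r ^ 2 * (z * ((h2 - f1 * h3) - z + α * x))) := by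
    funext r
    unfold Phi
    simp only [Prod.smul_mk, Prod.mk_add_mk, smul_eq_mul, Prod.mk_sub_mk]
    refine Prod.ext ?_ (Prod.ext ?_ (Prod.ext ?_ ?_))
    · dsimp only; ring
    · dsimp only; rw [← e2]; ring
    · dsimp only; rw [← e1]; ring
    · dsimp only; rw [← e0]; ring
  rw [hfun]
  exact (quad_deriv _ _ _).prodMk ((quad_deriv _ _ _).prodMk
    ((quad_deriv _ _ _).prodMk (quad_deriv _ _ _)))

/-- stability of solutions under a perturbation. -/
theorem stab {F : E × ℝ → E} (hF : ContDiff ℝ 1 F) (c : E) (hc : ∀ y, F (y, 0) = Phi y - c)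
    {y0 : E} (hR : Res y0 ≠ 0) {U : Set E} (hU : U ∈ 𝓝 y0) :
    ∀ᶠ s in 𝓝 (0 : ℝ), ∃ y ∈ U, F (y, s) = F (y0, 0) := by
  set F' := fderiv ℝ F (y0, 0) with hF'
  have h1 : HasStrictFDerivAt F F' (y0, 0) :=
    hF.contDiffAt.hasStrictFDerivAt one_ne_zero
  have hG : HasStrictFDerivAt (fun z : E × ℝ => (F z, z.2))
      (F'.prod (ContinuousLinearMap.snd ℝ E ℝ)) (y0, 0) :=
    h1.prodMk hasStrictFDerivAt_snd
  have hsurj : (F'.prod (ContinuousLinearMap.snd ℝ E ℝ)).range = ⊤ := by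
    rw [LinearMap.range_eq_top]
    rintro ⟨h, e⟩
    obtain ⟨dy, hdy⟩ := surj_line y0 hR c (h - e • F' (0, 1))
    have hline : HasDerivAt (fun r : ℝ => ((y0 + r • dy, (0 : ℝ)) : E × ℝ)) (dy, 0) 0 := by
      apply HasDerivAt.prodMk
      · have := ((hasDerivAt_id' (0 : ℝ)).smul_const dy).const_add y0
        simpa using this
      · exact hasDerivAt_const _ _
    have h2 : HasDerivAt (fun r : ℝ => F (y0 + r • dy, 0)) (F' (dy, 0)) 0 := by
      have h3 : HasFDerivAt F F' (y0 + (0 : ℝ) • dy, 0) := by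
        rw [zero_smul, add_zero]
        exact h1.hasFDerivAt
      exact HasFDerivAt.comp_hasDerivAt (f := fun r : ℝ => ((y0 + r • dy, (0 : ℝ)) : E × ℝ))
        (0 : ℝ) h3 hline
    have h3 : (fun r : ℝ => F (y0 + r • dy, 0)) = fun r : ℝ => Phi (y0 + r • dy) - c := by
      funext r
      exact hc _
    rw [h3] at h2
    have h4 := h2.unique hdy
    refine ⟨(dy, e), ?_⟩
    have h5 : ((dy, e) : E × ℝ) = (dy, 0) + e • ((0 : E), (1 : ℝ)) := by
      simp
    refine Prod.ext ?_ ?_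
    · change F' (dy, e) = h
      rw [h5, map_add, map_smul, h4]
      abel
    · rfl
  have hmap := hG.map_nhds_eq_of_surj hsurj
  have hU' : U ×ˢ (Set.univ : Set ℝ) ∈ 𝓝 ((y0, 0) : E × ℝ) :=
    prod_mem_nhds hU univ_mem
  have him : (fun z : E × ℝ => (F z, z.2)) '' (U ×ˢ (Set.univ : Set ℝ)) ∈
      𝓝 ((F (y0, 0), (0 : ℝ)) : E × ℝ) := by
    have := image_mem_map (m := fun z : E × ℝ => (F z, z.2)) hU'
    rwa [hmap] at this
  have hcont : Tendsto (fun s : ℝ => ((F (y0, 0), s) : E × ℝ)) (𝓝 0)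
      (𝓝 ((F (y0, 0), (0 : ℝ)) : E × ℝ)) := by
    apply Continuous.tendsto
    fun_prop
  filter_upwards [hcont him] with s hs
  obtain ⟨⟨y, s'⟩, ⟨hy, -⟩, hys⟩ := hs
  simp only [Prod.mk.injEq] at hys
  obtain ⟨h6, h7⟩ := hys
  exact ⟨y, hy, by rw [← h7]; exact h6⟩

/-! ### The matrices -/

/-- the matrix with the two diagonal blocks and the corners `C`, `D`. -/
def mk (a b c d a' b' c' d' : ℝ) (C D : Fin 2 → Fin 2 → ℝ) : Matrix (Fin 4) (Fin 4) ℝ :=
  !![a, b, C 0 0, C 0 1;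
     -c, -d, C 1 0, C 1 1;
     D 0 0, D 0 1, a', b';
     D 1 0, D 1 1, -c', -d']

/-- the monic quartic with the given coefficients. -/
noncomputable def quartic (y : E) : ℝ[X] :=
  X ^ 4 + C y.1 * X ^ 3 + C y.2.1 * X ^ 2 + C y.2.2.1 * X + C y.2.2.2

/-- `3 × 3` determinant. -/
def d3 (a b c d e f g h i : ℝ) : ℝ :=
  a * (e * i - f * h) - b * (d * i - f * g) + c * (d * h - e * g)

/-- the coefficients of the characteristic polynomial. -/
def cf (M : Matrix (Fin 4) (Fin 4) ℝ) : E :=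
  (-(M 0 0 + M 1 1 + M 2 2 + M 3 3),
   (M 0 0 * M 1 1 - M 0 1 * M 1 0) + (M 0 0 * M 2 2 - M 0 2 * M 2 0) +
     (M 0 0 * M 3 3 - M 0 3 * M 3 0) + (M 1 1 * M 2 2 - M 1 2 * M 2 1) +
     (M 1 1 * M 3 3 - M 1 3 * M 3 1) + (M 2 2 * M 3 3 - M 2 3 * M 3 2),
   -(d3 (M 0 0) (M 0 1) (M 0 2) (M 1 0) (M 1 1) (M 1 2) (M 2 0) (M 2 1) (M 2 2) +
     d3 (M 0 0) (M 0 1) (M 0 3) (M 1 0) (M 1 1) (M 1 3) (M 3 0) (M 3 1) (M 3 3) +
     d3 (M 0 0) (M 0 2) (M 0 3) (M 2 0) (M 2 2) (M 2 3) (M 3 0) (M 3 2) (M 3 3) +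
     d3 (M 1 1) (M 1 2) (M 1 3) (M 2 1) (M 2 2) (M 2 3) (M 3 1) (M 3 2) (M 3 3)),
   M 0 0 * d3 (M 1 1) (M 1 2) (M 1 3) (M 2 1) (M 2 2) (M 2 3) (M 3 1) (M 3 2) (M 3 3) -
   M 0 1 * d3 (M 1 0) (M 1 2) (M 1 3) (M 2 0) (M 2 2) (M 2 3) (M 3 0) (M 3 2) (M 3 3) +
   M 0 2 * d3 (M 1 0) (M 1 1) (M 1 3) (M 2 0) (M 2 1) (M 2 3) (M 3 0) (M 3 1) (M 3 3) -
   M 0 3 * d3 (M 1 0) (M 1 1) (M 1 2) (M 2 0) (M 2 1) (M 2 2) (M 3 0) (M 3 1) (M 3 2))

theorem charpoly_eq (M : Matrix (Fin 4) (Fin 4) ℝ) : M.charpoly = quartic (cf M) := by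
  apply Polynomial.funext
  intro x
  rw [Matrix.eval_charpoly]
  have h : Matrix.scalar (Fin 4) x - M = !![x - M 0 0, -M 0 1, -M 0 2, -M 0 3;
      -M 1 0, x - M 1 1, -M 1 2, -M 1 3;
      -M 2 0, -M 2 1, x - M 2 2, -M 2 3;
      -M 3 0, -M 3 1, -M 3 2, x - M 3 3] := by
    ext i j
    fin_cases i <;> fin_cases j <;> simp
  rw [h, Matrix.det_succ_row_zero, Fin.sum_univ_four]
  simp only [Matrix.det_fin_three, Matrix.submatrix_apply]
  simp [Fin.succAbove, quartic, cf, d3]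
  ring

theorem contDiff_cf {M : E × ℝ → Matrix (Fin 4) (Fin 4) ℝ}
    (h : ∀ i j, ContDiff ℝ 1 (fun z => M z i j)) : ContDiff ℝ 1 (fun z => cf (M z)) := by
  unfold cf d3
  fun_prop

/-- entry `a` of a block. -/
def ea (z δ f1 : ℝ) : ℝ := δ - z * f1
/-- entry `d` of a block. -/
def ed (z δ f1 : ℝ) : ℝ := δ + (1 - z) * f1
/-- entry `b` of a block. -/
def eb (z w δ f1 f0 : ℝ) : ℝ := (1 - w) + w * (f0 + ea z δ f1 * ed z δ f1)
/-- entry `c` of a block. -/
def ec (z w δ f1 f0 : ℝ) : ℝ := w + (1 - w) * (f0 + ea z δ f1 * ed z δ f1)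

/-- parameter of the block type. -/
def vz (r c : Fin 2) : ℝ := if r = 0 ∧ c = 0 then 1 else 0
/-- parameter of the block type. -/
def vw (r c : Fin 2) : ℝ := if r = 1 ∧ c = 0 then 1 else 0
/-- linear coefficient of the entry of the adjugate. -/
def u1 (r c : Fin 2) : ℝ := if r = c then 1 else 0
/-- constant coefficient of the entry of the adjugate. -/
def u0 (δ : ℝ) (r c : Fin 2) : ℝ := (if r = 0 then 1 else -1) * (if r = c then δ else 1)

/-- the realization. -/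
def Mat (δ γ : ℝ) (i j k l : Fin 2) (σ τ : Fin 2 → Fin 2 → ℝ) (z : E × ℝ) :
    Matrix (Fin 4) (Fin 4) ℝ :=
  mk (ea (vz l i) δ z.1.1) (eb (vz l i) (vw l i) δ z.1.1 z.1.2.1)
    (ec (vz l i) (vw l i) δ z.1.1 z.1.2.1) (ed (vz l i) δ z.1.1)
    (ea (vz j k) δ z.1.2.2.1) (eb (vz j k) (vw j k) δ z.1.2.2.1 z.1.2.2.2)
    (ec (vz j k) (vw j k) δ z.1.2.2.1 z.1.2.2.2) (ed (vz j k) δ z.1.2.2.1)
    (fun i' j' => σ i' j' * (if i' = i ∧ j' = j then γ else z.2))
    (fun k' l' => τ k' l' * (if k' = k ∧ l' = l then 1 else z.2))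

theorem cf_Mat (δ γ : ℝ) (i j k l : Fin 2) (σ τ : Fin 2 → Fin 2 → ℝ) (y : E) :
    cf (Mat δ γ i j k l σ τ (y, 0)) = Phi y -
      (0, σ i j * τ k l * γ * (u1 l i * u1 j k),
        σ i j * τ k l * γ * (u1 l i * u0 δ j k + u0 δ l i * u1 j k),
        σ i j * τ k l * γ * (u0 δ l i * u0 δ j k)) := by
  obtain ⟨f1, f0, g1, g0⟩ := y
  fin_cases i <;> fin_cases j <;> fin_cases k <;> fin_cases l <;>
  · refine Prod.ext ?_ (Prod.ext ?_ (Prod.ext ?_ ?_)) <;>
    · simp [cf, Mat, mk, Phi, d3, ea, eb, ec, ed, vz, vw, u1, u0]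
      try ring

theorem contDiff_Mat (δ γ : ℝ) (i j k l : Fin 2) (σ τ : Fin 2 → Fin 2 → ℝ) :
    ContDiff ℝ 1 (fun z : E × ℝ => cf (Mat δ γ i j k l σ τ z)) := by
  apply contDiff_cf
  intro p q
  fin_cases p <;> fin_cases q <;> simp [Mat, mk, ea, eb, ec, ed] <;> (try split_ifs) <;> fun_prop

theorem step1 {P y0 : E} (e1 e2 κ : ℝ) (hR : Res y0 ≠ 0) (hP : Phi y0 = P + (0, 0, 0, κ))
    {U : Set E} (hU : U ∈ 𝓝 y0) :
    ∀ᶠ s in 𝓝 (0 : ℝ), ∃ y ∈ U,
      Phi y = P + (0, κ * ((e1 * s) * (e2 * s)), κ * (e1 * s + e2 * s), κ) := by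
  have hF : ContDiff ℝ 1 (fun z : E × ℝ => Phi z.1 -
      (0, κ * ((e1 * z.2) * (e2 * z.2)), κ * (e1 * z.2 + e2 * z.2), 0)) := by
    unfold Phi
    fun_prop
  have h := stab hF 0 (by intro y; simp) hR hU
  filter_upwards [h] with s hs
  obtain ⟨y, hy, hys⟩ := hs
  refine ⟨y, hy, ?_⟩
  rw [sub_eq_iff_eq_add] at hys
  rw [hys, hP]
  refine Prod.ext ?_ (Prod.ext ?_ (Prod.ext ?_ ?_)) <;> simp

/-! ### Factorization -/

theorem quartic_inj {P Q : E} (h : quartic P = quartic Q) : P = Q := by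
  have h3 := congrArg (fun p => coeff p 3) h
  have h2 := congrArg (fun p => coeff p 2) h
  have h1 := congrArg (fun p => coeff p 1) h
  have h0 := congrArg (fun p => coeff p 0) h
  simp [quartic, coeff_X, coeff_C] at h3 h2 h1 h0
  exact Prod.ext h3 (Prod.ext h2 (Prod.ext h1 h0))

theorem quartic_monic (P : E) : (quartic P).Monic := by
  unfold quartic
  monicity!

theorem quartic_natDegree (P : E) : (quartic P).natDegree = 4 := by
  unfold quartic
  compute_degree!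

theorem exists_quartic {p : ℝ[X]} (hp : p.Monic) (hd : p.natDegree = 4) :
    ∃ P : E, p = quartic P := by
  refine ⟨(p.coeff 3, p.coeff 2, p.coeff 1, p.coeff 0), ?_⟩
  rw [hp.as_sum, hd]
  simp [quartic, Finset.sum_range_succ]
  ring

theorem exists_Phi (P : E) : ∃ y : E, Phi y = P := by
  have h4 : IsMonicOfDegree (quartic P) (2 + 2) := ⟨quartic_natDegree P, quartic_monic P⟩
  obtain ⟨f, g, hf, hg, h⟩ := h4.eq_isMonicOfDegree_two_mul_isMonicOfDegree
  obtain ⟨f1, f0, rfl⟩ := isMonicOfDegree_two_iff.1 hf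
  obtain ⟨g1, g0, rfl⟩ := isMonicOfDegree_two_iff.1 hg
  refine ⟨(f1, f0, g1, g0), ?_⟩
  apply quartic_inj
  rw [h]
  unfold quartic Phi
  simp only [map_add, map_mul]
  ring

theorem Phi_prod (f1 f0 g1 g0 : ℝ) (z : ℂ) :
    (z ^ 2 + f1 * z + f0) * (z ^ 2 + g1 * z + g0) =
      z ^ 4 + (Phi (f1, f0, g1, g0)).1 * z ^ 3 + (Phi (f1, f0, g1, g0)).2.1 * z ^ 2 +
        (Phi (f1, f0, g1, g0)).2.2.1 * z + (Phi (f1, f0, g1, g0)).2.2.2 := by
  unfold Phi
  push_cast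
  ring

theorem common_root {f1 f0 g1 g0 : ℝ} (h : Res (f1, f0, g1, g0) = 0) :
    ∃ z : ℂ, z ^ 2 + f1 * z + f0 = 0 ∧ z ^ 2 + g1 * z + g0 = 0 := by
  unfold Res at h
  dsimp only at h
  by_cases hα : f1 - g1 = 0
  · have hβ : f0 - g0 = 0 := by
      rw [hα] at h
      have : (f0 - g0) ^ 2 = 0 := by linarith
      exact pow_eq_zero_iff (two_ne_zero) |>.1 this
    obtain ⟨w, hw⟩ := IsAlgClosed.exists_pow_nat_eq ((f1 : ℂ) ^ 2 - 4 * f0) (n := 2) (by norm_num)
    have e1 : f1 = g1 := by linarith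
    have e2 : f0 = g0 := by linarith
    refine ⟨(-f1 + w) / 2, ?_, ?_⟩
    · linear_combination (1 / 4 : ℂ) * hw
    · rw [← e1, ← e2]
      linear_combination (1 / 4 : ℂ) * hw
  · set z : ℝ := -(f0 - g0) / (f1 - g1) with hz
    have hz2 : z * (f1 - g1) = -(f0 - g0) := div_mul_cancel₀ _ hα
    have e1 : z ^ 2 + f1 * z + f0 = 0 := by
      have h2 : (f1 - g1) ^ 2 ≠ 0 := pow_ne_zero 2 hα
      apply mul_right_cancel₀ h2
      have : (z ^ 2 + f1 * z + f0) * (f1 - g1) ^ 2 =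
          (z * (f1 - g1)) ^ 2 + f1 * (f1 - g1) * (z * (f1 - g1)) + f0 * (f1 - g1) ^ 2 := by ring
      rw [this, hz2]
      linarith
    have e2 : z ^ 2 + g1 * z + g0 = 0 := by linarith
    exact ⟨z, by exact_mod_cast e1, by exact_mod_cast e2⟩

theorem exists_sep (P : E) {ω : ℝ} (hω : ω ≠ 0) :
    ∃ t > 0, ∃ y0 : E, Res y0 ≠ 0 ∧ Phi y0 = P + (0, 0, 0, ω * t) := by
  classical
  obtain ⟨p3, p2, p1, p0⟩ := P
  set D : ℂ[X] := C 4 * X ^ 3 + C (3 * (p3 : ℂ)) * X ^ 2 + C (2 * (p2 : ℂ)) * X + C (p1 : ℂ)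
    with hD
  have hD0 : D ≠ 0 := by
    intro h
    have := congrArg (fun p => coeff p 3) h
    rw [hD] at this
    simp only [coeff_add, coeff_C_mul, coeff_X_pow, coeff_X, coeff_C, coeff_zero] at this
    norm_num at this
  set Bad : Finset ℂ := D.roots.toFinset.image
    (fun z => -(z ^ 4 + p3 * z ^ 3 + p2 * z ^ 2 + p1 * z + p0)) with hBad
  have hinf : ((fun t : ℝ => ((ω * t : ℝ) : ℂ)) '' Set.Ioi 0).Infinite := by
    apply Set.Infinite.image _ (Set.Ioi_infinite 0)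
    intro a _ b _ h
    dsimp only at h
    exact mul_left_cancel₀ hω (Complex.ofReal_injective h)
  obtain ⟨c, ⟨t, ht, rfl⟩, hc⟩ := hinf.exists_notMem_finset Bad
  obtain ⟨y0, hy0⟩ := exists_Phi ((p3, p2, p1, p0) + (0, 0, 0, ω * t))
  refine ⟨t, ht, y0, ?_, hy0⟩
  intro hR
  apply hc
  obtain ⟨f1, f0, g1, g0⟩ := y0
  obtain ⟨z, hz1, hz2⟩ := common_root hR
  have h1 := Phi_prod f1 f0 g1 g0 z
  rw [hy0, hz1, hz2] at h1
  have c3 : f1 + g1 = p3 := by
    have := congrArg (fun P : E => P.1) hy0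
    simpa [Phi] using this
  have c2 : f0 + g0 + f1 * g1 = p2 := by
    have := congrArg (fun P : E => P.2.1) hy0
    simpa [Phi] using this
  have c1 : f1 * g0 + f0 * g1 = p1 := by
    have := congrArg (fun P : E => P.2.2.1) hy0
    simpa [Phi] using this
  rw [hBad, Finset.mem_image]
  refine ⟨z, ?_, ?_⟩
  · rw [Multiset.mem_toFinset, mem_roots hD0, IsRoot.def, hD]
    simp only [eval_add, eval_mul, eval_C, eval_pow, eval_X]
    rw [← c3, ← c2, ← c1]
    push_cast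
    linear_combination (2 * z + g1) * hz1 + (2 * z + f1) * hz2
  · simp only [Prod.mk_add_mk, add_zero] at h1
    push_cast at h1 ⊢
    linear_combination h1

/-! ### Signs -/

theorem sign_coe_mul (s : SignType) {r : ℝ} (hr : 0 < r) :
    SignType.sign ((s : ℝ) * r) = s := by
  rcases s with _ | _ | _
  · change SignType.sign (((0 : SignType) : ℝ) * r) = 0
    simp
  · change SignType.sign (((-1 : SignType) : ℝ) * r) = -1
    simp [hr]
  · change SignType.sign (((1 : SignType) : ℝ) * r) = 1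
    simp [hr]

theorem pos_entries {K δ f1 f0 z w : ℝ} (hK : 1 ≤ K) (hδ : 4 * K < δ) (h1 : |f1| < K)
    (h0 : |f0| < K) (hz : z = 0 ∨ z = 1) (hw : w = 0 ∨ w = 1) :
    0 < ea z δ f1 ∧ 0 < eb z w δ f1 f0 ∧ 0 < ec z w δ f1 f0 ∧ 0 < ed z δ f1 := by
  rw [abs_lt] at h1 h0
  have ha : 3 * K < ea z δ f1 := by
    unfold ea
    rcases hz with rfl | rfl <;> linarith
  have hd : 3 * K < ed z δ f1 := by
    unfold ed
    rcases hz with rfl | rfl <;> linarith
  have had : 0 < f0 + ea z δ f1 * ed z δ f1 := by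
    have : 3 * K * (3 * K) < ea z δ f1 * ed z δ f1 :=
      mul_lt_mul'' ha hd (by linarith) (by linarith)
    nlinarith
  refine ⟨by linarith, ?_, ?_, by linarith⟩
  · unfold eb
    rcases hw with rfl | rfl <;> linarith
  · unfold ec
    rcases hw with rfl | rfl <;> linarith

theorem vz_cases (r c : Fin 2) : vz r c = 0 ∨ vz r c = 1 := by
  unfold vz
  split_ifs <;> simp

theorem vw_cases (r c : Fin 2) : vw r c = 0 ∨ vw r c = 1 := by
  unfold vw
  split_ifs <;> simp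

/-- positions of the first block. -/
def fst (i : Fin 2) : Fin 4 := ![0, 1] i
/-- positions of the second block. -/
def snd (i : Fin 2) : Fin 4 := ![2, 3] i

theorem realization {S : Matrix (Fin 4) (Fin 4) SignType} (hS : IsSuperpattern S T2T2)
    {a b c d a' b' c' d' : ℝ} {C D : Fin 2 → Fin 2 → ℝ}
    (ha : 0 < a) (hb : 0 < b) (hc : 0 < c) (hd : 0 < d)
    (ha' : 0 < a') (hb' : 0 < b') (hc' : 0 < c') (hd' : 0 < d')
    (hC : ∀ i j, SignType.sign (C i j) = S (fst i) (snd j))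
    (hD : ∀ i j, SignType.sign (D i j) = S (snd i) (fst j)) :
    IsRealization S (mk a b c d a' b' c' d' C D) := by
  have s00 := hS 0 0 (by decide)
  have s01 := hS 0 1 (by decide)
  have s10 := hS 1 0 (by decide)
  have s11 := hS 1 1 (by decide)
  have s22 := hS 2 2 (by decide)
  have s23 := hS 2 3 (by decide)
  have s32 := hS 3 2 (by decide)
  have s33 := hS 3 3 (by decide)
  intro p q
  fin_cases p <;> fin_cases q
  · change SignType.sign a = S 0 0
    rw [s00, sign_pos ha]; rfl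
  · change SignType.sign b = S 0 1
    rw [s01, sign_pos hb]; rfl
  · exact hC 0 0
  · exact hC 0 1
  · change SignType.sign (-c) = S 1 0
    rw [s10, sign_neg (by linarith)]; rfl
  · change SignType.sign (-d) = S 1 1
    rw [s11, sign_neg (by linarith)]; rfl
  · exact hC 1 0
  · exact hC 1 1
  · exact hD 0 0
  · exact hD 0 1
  · change SignType.sign a' = S 2 2
    rw [s22, sign_pos ha']; rfl
  · change SignType.sign b' = S 2 3
    rw [s23, sign_pos hb']; rfl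
  · exact hD 1 0
  · exact hD 1 1
  · change SignType.sign (-c') = S 3 2
    rw [s32, sign_neg (by linarith)]; rfl
  · change SignType.sign (-d') = S 3 3
    rw [s33, sign_neg (by linarith)]; rfl

theorem exists_bound (y : E) : ∃ K : ℝ, 1 ≤ K ∧ |y.1| < K ∧ |y.2.1| < K ∧ |y.2.2.1| < K ∧
    |y.2.2.2| < K := by
  have h1 := abs_nonneg y.1
  have h2 := abs_nonneg y.2.1
  have h3 := abs_nonneg y.2.2.1
  have h4 := abs_nonneg y.2.2.2
  exact ⟨1 + |y.1| + |y.2.1| + |y.2.2.1| + |y.2.2.2| + 1, by linarith, by linarith, by linarith,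
    by linarith, by linarith⟩

/-- the box. -/
def box (K : ℝ) : Set E := {y | |y.1| < K ∧ |y.2.1| < K ∧ |y.2.2.1| < K ∧ |y.2.2.2| < K}

theorem box_open (K : ℝ) : IsOpen (box K) := by
  unfold box
  simp only [Set.ofPred_and]
  refine IsOpen.inter ?_ (IsOpen.inter ?_ (IsOpen.inter ?_ ?_)) <;>
  exact isOpen_lt (by fun_prop) (by fun_prop)

theorem res_open : IsOpen {y : E | Res y ≠ 0} := by
  unfold Res
  exact isOpen_ne_fun (by fun_prop) (by fun_prop)

/-- one of the corners vanishes. -/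
theorem case1 {S : Matrix (Fin 4) (Fin 4) SignType} (hS : IsSuperpattern S T2T2)
    (h0 : (∀ i j, S (fst i) (snd j) = 0) ∨ ∀ i j, S (snd i) (fst j) = 0) :
    SpectrallyArbitrary S := by
  intro p hp hd
  obtain ⟨P, rfl⟩ := exists_quartic hp hd
  obtain ⟨y, hy⟩ := exists_Phi P
  obtain ⟨K, hK, b1, b2, b3, b4⟩ := exists_bound y
  obtain ⟨a1, a2, a3, a4⟩ := pos_entries (δ := 5 * K) (z := 0) (w := 0) hK (by linarith) b1 b2
    (Or.inl rfl) (Or.inl rfl)
  obtain ⟨a5, a6, a7, a8⟩ := pos_entries (δ := 5 * K) (z := 0) (w := 0) hK (by linarith) b3 b4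
    (Or.inl rfl) (Or.inl rfl)
  refine ⟨mk (ea 0 (5 * K) y.1) (eb 0 0 (5 * K) y.1 y.2.1) (ec 0 0 (5 * K) y.1 y.2.1)
    (ed 0 (5 * K) y.1) (ea 0 (5 * K) y.2.2.1) (eb 0 0 (5 * K) y.2.2.1 y.2.2.2)
    (ec 0 0 (5 * K) y.2.2.1 y.2.2.2) (ed 0 (5 * K) y.2.2.1)
    (fun i j => ((S (fst i) (snd j) : SignType) : ℝ))
    (fun i j => ((S (snd i) (fst j) : SignType) : ℝ)), ?_, ?_⟩
  · apply realization hS a1 a2 a3 a4 a5 a6 a7 a8
    · intro i j
      have := sign_coe_mul (S (fst i) (snd j)) one_pos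
      rwa [mul_one] at this
    · intro i j
      have := sign_coe_mul (S (snd i) (fst j)) one_pos
      rwa [mul_one] at this
  · rw [charpoly_eq, ← hy]
    congr 1
    obtain ⟨f1, f0, g1, g0⟩ := y
    rcases h0 with h0 | h0
    · simp only [h0]
      refine Prod.ext ?_ (Prod.ext ?_ (Prod.ext ?_ ?_)) <;>
      · simp [cf, mk, Phi, d3, ea, eb, ec, ed]
        try ring
    · simp only [h0]
      refine Prod.ext ?_ (Prod.ext ?_ (Prod.ext ?_ ?_)) <;>
      · simp [cf, mk, Phi, d3, ea, eb, ec, ed]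
        try ring

theorem coe_ne {s : SignType} (hs : s ≠ 0) : (s : ℝ) ≠ 0 := by
  rcases s with _ | _ | _
  · exact absurd rfl hs
  · change ((-1 : SignType) : ℝ) ≠ 0
    simp
  · change ((1 : SignType) : ℝ) ≠ 0
    simp

theorem match_all (l i j k : Fin 2) {s δ : ℝ} (t q : ℝ) (h : s * δ = 1) (hδ : 0 < δ) :
    (q * (t / ((if l = i then δ else 1) * (if j = k then δ else 1))) * (u1 l i * u1 j k) =
      (q * ((if l = 0 then 1 else -1) * (if j = 0 then 1 else -1))) * t *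
        (((if l = i then (if l = 0 then 1 else -1) else 0) * s) *
        ((if j = k then (if j = 0 then 1 else -1) else 0) * s))) ∧
    (q * (t / ((if l = i then δ else 1) * (if j = k then δ else 1))) *
        (u1 l i * u0 δ j k + u0 δ l i * u1 j k) =
      (q * ((if l = 0 then 1 else -1) * (if j = 0 then 1 else -1))) * t *
        (((if l = i then (if l = 0 then 1 else -1) else 0) * s) +
        ((if j = k then (if j = 0 then 1 else -1) else 0) * s))) ∧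
    (q * (t / ((if l = i then δ else 1) * (if j = k then δ else 1))) *
        (u0 δ l i * u0 δ j k) =
      (q * ((if l = 0 then 1 else -1) * (if j = 0 then 1 else -1))) * t) := by
  have hs : s = δ⁻¹ := eq_inv_of_mul_eq_one_left h
  subst hs
  unfold u1 u0
  fin_cases i <;> fin_cases j <;> fin_cases k <;> fin_cases l <;>
  · refine ⟨?_, ?_, ?_⟩ <;>
    · simp
      try field_simp
      try ring1

/-- both corners are nonzero. -/
theorem case2 {S : Matrix (Fin 4) (Fin 4) SignType} (hS : IsSuperpattern S T2T2)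
    {i j k l : Fin 2} (hC : S (fst i) (snd j) ≠ 0) (hD : S (snd k) (fst l) ≠ 0) :
    SpectrallyArbitrary S := by
  intro p hp hd
  obtain ⟨P, rfl⟩ := exists_quartic hp hd
  set σ : Fin 2 → Fin 2 → ℝ := fun i j => ((S (fst i) (snd j) : SignType) : ℝ) with hσ
  set τ : Fin 2 → Fin 2 → ℝ := fun i j => ((S (snd i) (fst j) : SignType) : ℝ) with hτ
  have hσ0 : σ i j ≠ 0 := coe_ne hC
  have hτ0 : τ k l ≠ 0 := coe_ne hD
  set ω : ℝ := σ i j * τ k l * ((if l = 0 then 1 else -1) * (if j = 0 then 1 else -1)) with hω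
  have hω0 : ω ≠ 0 := by
    apply mul_ne_zero (mul_ne_zero hσ0 hτ0)
    split_ifs <;> norm_num
  obtain ⟨t, ht, y0, hR, hy0⟩ := exists_sep P hω0
  obtain ⟨K, hK, b1, b2, b3, b4⟩ := exists_bound y0
  have hU : box K ∩ {y : E | Res y ≠ 0} ∈ 𝓝 y0 :=
    ((box_open K).inter res_open).mem_nhds ⟨⟨b1, b2, b3, b4⟩, hR⟩
  have hs1 := step1 (if l = i then (if l = 0 then 1 else -1) else 0)
    (if j = k then (if j = 0 then 1 else -1) else 0) (ω * t) hR hy0 hU
  have hs2 : ∀ᶠ s in 𝓝[>] (0 : ℝ), 0 < s := self_mem_nhdsWithin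
  have hs3 : ∀ᶠ s in 𝓝[>] (0 : ℝ), s < 1 / (4 * K) :=
    nhdsWithin_le_nhds (Iio_mem_nhds (by positivity))
  obtain ⟨s, ⟨y1, ⟨hy1, hR1⟩, hy1s⟩, hs, hsK⟩ :=
    ((hs1.filter_mono nhdsWithin_le_nhds).and (hs2.and hs3)).exists
  have hδ : 4 * K < s⁻¹ := by
    rw [lt_inv_comm₀ (by linarith) hs]
    simpa using hsK
  set δ := s⁻¹ with hδdef
  have hδ0 : 0 < δ := by linarith
  set γ : ℝ := t / ((if l = i then δ else 1) * (if j = k then δ else 1)) with hγ
  have hγ0 : 0 < γ := by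
    rw [hγ]
    apply div_pos ht
    split_ifs <;> positivity
  have hsδ : s * δ = 1 := mul_inv_cancel₀ hs.ne'
  have hFP : cf (Mat δ γ i j k l σ τ (y1, 0)) = P := by
    obtain ⟨m1, m2, m3⟩ := match_all l i j k t (σ i j * τ k l) hsδ hδ0
    rw [cf_Mat, hy1s, m1, m2, m3, hω]
    simp
  have hs4 := stab (contDiff_Mat δ γ i j k l σ τ) _ (cf_Mat δ γ i j k l σ τ) hR1
    ((box_open K).mem_nhds hy1)
  obtain ⟨ε, ⟨y, hy, hyε⟩, hε⟩ :=
    ((hs4.filter_mono nhdsWithin_le_nhds).and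
      (self_mem_nhdsWithin : ∀ᶠ s in 𝓝[>] (0 : ℝ), 0 < s)).exists
  obtain ⟨d1, d2, d3, d4⟩ := hy
  obtain ⟨a1, a2, a3, a4⟩ := pos_entries hK hδ d1 d2 (vz_cases l i) (vw_cases l i)
  obtain ⟨a5, a6, a7, a8⟩ := pos_entries hK hδ d3 d4 (vz_cases j k) (vw_cases j k)
  refine ⟨Mat δ γ i j k l σ τ (y, ε), ?_, ?_⟩
  · apply realization hS a1 a2 a3 a4 a5 a6 a7 a8
    · intro i' j'
      apply sign_coe_mul
      split_ifs
      · exact hγ0
      · exact hε
    · intro i' j'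
      apply sign_coe_mul
      split_ifs
      · exact one_pos
      · exact hε
  · rw [charpoly_eq, hyε, hFP]

/-- **MP_b6277e_co, Q1.** Every superpattern of `T₂ ⊕ T₂` is spectrally arbitrary. -/
theorem result (S : Matrix (Fin 4) (Fin 4) SignType) (hS : IsSuperpattern S T2T2) :
    SpectrallyArbitrary S := by
  by_cases hC : ∀ i j, S (fst i) (snd j) = 0
  · exact case1 hS (Or.inl hC)
  · by_cases hD : ∀ i j, S (snd i) (fst j) = 0
    · exact case1 hS (Or.inr hD)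
    · push Not at hC hD
      obtain ⟨i, j, h1⟩ := hC
      obtain ⟨k, l, h2⟩ := hD
      exact case2 hS h1 h2

end Pool.Agent.Results.MP_b6277e_co.SuperT2T2
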